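import Mathlib

set_option autoImplicit false

namespace Pool.Agent.Results.MP_dbf4ef_co.EtaVariety

universe u

/-- The unit sphere `S(x)` of a graph: the subgraph induced by the neighbours of `x`. -/
def unitSphere {V : Type u} (G : SimpleGraph V) (x : V) : SimpleGraph (G.neighborSet x) :=
  G.induce (G.neighborSet x)

/-- The graph `G ∖ x` obtained by deleting the vertex `x`. -/
def deleteVertex {V : Type u} (G : SimpleGraph V) (x : V) : SimpleGraph ({x}ᶜ : Set V) :=
  G.induce {x}ᶜ

/-- `v_k(G)`: the number of complete subgraphs of `G` on `k + 1` vertices. -/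
noncomputable def cliqueCount {V : Type u} (G : SimpleGraph V) (k : ℕ) : ℕ :=
  Nat.card {s : Finset V // G.IsNClique (k + 1) s}

/-- The Euler characteristic `∑_k (-1)^k v_k(G)` of (the Whitney complex of) a finite graph. -/
noncomputable def eulerChar {V : Type u} (G : SimpleGraph V) : ℤ :=
  ∑ k ∈ Finset.range (Nat.card V), (-1) ^ k * (cliqueCount G k : ℤ)

/-- Collapsible graphs: a one-vertex graph is collapsible, and `G` is collapsible if for some
vertex `x` both `G ∖ x` and `S(x)` are collapsible. -/
inductive Collapsible : ∀ {V : Type u}, SimpleGraph V → Prop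
  | point {V : Type u} (G : SimpleGraph V) (h : Nat.card V = 1) : Collapsible G
  | step {V : Type u} (G : SimpleGraph V) (x : V) (h₁ : Collapsible (deleteVertex G x))
      (h₂ : Collapsible (unitSphere G x)) : Collapsible G

/-- `IsSphere n G`: the graph `G` is an `(n-1)`-sphere. The `(-1)`-sphere is the empty graph, and
for `n ≥ 1` an `(n-1)`-sphere is an `(n-1)`-graph (all unit spheres are `(n-2)`-spheres) that
becomes collapsible after deleting a single vertex. -/
def IsSphere : ℕ → ∀ {V : Type u}, SimpleGraph V → Prop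
  | 0, V, _ => IsEmpty V
  | n + 1, V, G => (∀ x : V, IsSphere n (unitSphere G x)) ∧
      ∃ x : V, Collapsible (deleteVertex G x)

/-- `IsDGraph n G`: the graph `G` is an `(n-1)`-graph. The `(-1)`-graph is the empty graph, and for
`n ≥ 1` an `(n-1)`-graph is a graph all of whose unit spheres are `(n-2)`-spheres. -/
def IsDGraph : ℕ → ∀ {V : Type u}, SimpleGraph V → Prop
  | 0, V, _ => IsEmpty V
  | n + 1, V, G => ∀ x : V, IsSphere n (unitSphere G x)

/-- `IsVariety n G`: the graph `G` is an `(n-1)`-variety. The empty graph is a `(-1)`-variety, and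
for `n ≥ 1` the graph `G` is an `(n-1)`-variety if there is a set `Sg` of pairwise nonadjacent
vertices such that `S(x)` is an `(n-2)`-graph for `x ∉ Sg` and an `(n-2)`-variety for `x ∈ Sg`. -/
def IsVariety : ℕ → ∀ {V : Type u}, SimpleGraph V → Prop
  | 0, V, _ => IsEmpty V
  | n + 1, V, G => ∃ Sg : Set V, (∀ x ∈ Sg, ∀ y ∈ Sg, ¬ G.Adj x y) ∧
      (∀ x, x ∉ Sg → IsDGraph n (unitSphere G x)) ∧ (∀ x ∈ Sg, IsVariety n (unitSphere G x))

/-- The faces of the Whitney complex: vertex sets of nonempty complete subgraphs. -/
abbrev Simplex {V : Type u} (G : SimpleGraph V) : Type u :=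
  {s : Finset V // s.Nonempty ∧ G.IsClique (s : Set V)}

/-- The Barycentric refinement `G_1`: its vertices are the nonempty complete subgraphs of `G`,
and two of them are adjacent iff one is strictly contained in the other. -/
def barycentric {V : Type u} (G : SimpleGraph V) : SimpleGraph (Simplex G) where
  Adj a b := a.1 ⊂ b.1 ∨ b.1 ⊂ a.1
  symm := ⟨fun _ _ h => h.symm⟩
  loopless := ⟨fun a h => by rcases h with h | h <;> exact (ssubset_irrefl _ h)⟩

/-- The functional `η(G) = ∑_{x ∈ V(G_1)} χ(S(x))`. -/
noncomputable def eta {V : Type u} (G : SimpleGraph V) : ℤ :=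
  ∑ᶠ x : Simplex G, eulerChar (unitSphere (barycentric G) x)

/-! ### Signed clique sums -/

open Classical in
/-- Signed count of the cliques inside a set of vertices, the empty clique included. -/
noncomputable def E {W : Type u} (B : SimpleGraph W) (A : Finset W) : ℤ :=
  ∑ c ∈ A.powerset.filter (fun c : Finset W => B.IsClique (c : Set W)), (-1) ^ c.card

theorem E_eq {W : Type u} (B : SimpleGraph W) (A : Finset W)
    [DecidablePred fun c : Finset W => B.IsClique (c : Set W)] :
    E B A = ∑ c ∈ A.powerset.filter (fun c : Finset W => B.IsClique (c : Set W)),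
      (-1) ^ c.card := by
  unfold E
  congr!

theorem E_empty {W : Type u} (B : SimpleGraph W) : E B ∅ = 1 := by
  classical
  rw [E_eq]
  have : (∅ : Finset W).powerset.filter (fun c : Finset W => B.IsClique (c : Set W)) = {∅} := by
    ext c
    simp only [Finset.powerset_empty, Finset.mem_filter, Finset.mem_singleton,
      and_iff_left_iff_imp]
    rintro rfl
    simp
  rw [this]
  simp

theorem E_insert {W : Type u} [DecidableEq W] (B : SimpleGraph W) [DecidableRel B.Adj] {p : W} {A : Finset W} (hp : p ∉ A) :
    E B (insert p A) = E B A - E B (A.filter (fun q => B.Adj p q)) := by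
  classical
  simp only [E_eq]
  have h1 : (insert p A).powerset.filter (fun c : Finset W => B.IsClique (c : Set W)) =
      A.powerset.filter (fun c : Finset W => B.IsClique (c : Set W)) ∪
      ((A.filter (fun q => B.Adj p q)).powerset.filter (fun c : Finset W => B.IsClique (c : Set W))).image
        (insert p) := by
    ext c
    simp only [Finset.mem_filter, Finset.mem_powerset, Finset.mem_union, Finset.mem_image]
    constructor
    · rintro ⟨hc, hcl⟩
      by_cases hpc : p ∈ c
      · right
        refine ⟨c.erase p, ⟨?_, ?_⟩, Finset.insert_erase hpc⟩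
        · intro q hq
          rw [Finset.mem_erase] at hq
          rw [Finset.mem_filter]
          refine ⟨(Finset.mem_insert.mp (hc hq.2)).resolve_left hq.1, ?_⟩
          exact hcl (Finset.mem_coe.mpr hpc) (Finset.mem_coe.mpr hq.2) (Ne.symm hq.1)
        · exact hcl.subset (by simp)
      · left
        refine ⟨?_, hcl⟩
        intro q hq
        exact (Finset.mem_insert.mp (hc hq)).resolve_left (fun h => hpc (h ▸ hq))
    · rintro (⟨hc, hcl⟩ | ⟨c', ⟨hc', hcl'⟩, rfl⟩)
      · exact ⟨hc.trans (Finset.subset_insert _ _), hcl⟩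
      · refine ⟨Finset.insert_subset_insert _ (hc'.trans (Finset.filter_subset _ _)), ?_⟩
        rw [Finset.coe_insert, SimpleGraph.isClique_insert]
        refine ⟨hcl', ?_⟩
        intro q hq _
        exact (Finset.mem_filter.mp (hc' hq)).2
  rw [h1, Finset.sum_union, Finset.sum_image]
  · rw [sub_eq_add_neg, ← Finset.sum_neg_distrib]
    congr 1
    apply Finset.sum_congr rfl
    intro c hc
    simp only [Finset.mem_filter, Finset.mem_powerset] at hc
    have : p ∉ c := fun h => hp (Finset.mem_filter.mp (hc.1 h)).1
    rw [Finset.card_insert_of_notMem this, pow_succ]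
    ring
  · intro c hc c' hc' h
    simp only [Finset.coe_filter, Finset.mem_powerset, Set.mem_ofPred_eq] at hc hc'
    have h1 : p ∉ c := fun h => hp (Finset.mem_filter.mp (hc.1 h)).1
    have h2 : p ∉ c' := fun h => hp (Finset.mem_filter.mp (hc'.1 h)).1
    have := congrArg (fun s => Finset.erase s p) h
    simpa [Finset.erase_insert h1, Finset.erase_insert h2] using this
  · rw [Finset.disjoint_left]
    intro c hc hc'
    simp only [Finset.mem_filter, Finset.mem_powerset, Finset.mem_image] at hc hc'
    obtain ⟨c', _, rfl⟩ := hc'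
    exact hp (hc.1 (Finset.mem_insert_self _ _))

theorem E_join {W : Type u} [DecidableEq W] (B : SimpleGraph W) (A : Finset W) :
    ∀ (n : ℕ) (C : Finset W), C.card = n → (∀ c ∈ C, c ∉ A) → (∀ a ∈ A, ∀ c ∈ C, B.Adj c a) →
    E B (A ∪ C) = E B A * E B C := by
  classical
  intro n
  induction n using Nat.strong_induction_on with
  | _ n ih =>
    intro C hn hd hadj
    rcases C.eq_empty_or_nonempty with rfl | ⟨p, hp⟩
    · simp [E_empty]
    · obtain ⟨C', hpC', rfl⟩ : ∃ C', p ∉ C' ∧ C = insert p C' :=
        ⟨C.erase p, Finset.notMem_erase _ _, (Finset.insert_erase hp).symm⟩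
      rw [Finset.card_insert_of_notMem hpC'] at hn
      have hpA : p ∉ A := hd p (Finset.mem_insert_self _ _)
      rw [Finset.union_insert, E_insert B (by simp [hpA, hpC']), E_insert B hpC',
        Finset.filter_union]
      have hf : A.filter (fun q => B.Adj p q) = A :=
        Finset.filter_true_of_mem (fun a ha => hadj a ha p (Finset.mem_insert_self _ _))
      rw [hf, ih C'.card (by omega) C' rfl (fun c hc => hd c (Finset.mem_insert_of_mem hc))
        (fun a ha c hc => hadj a ha c (Finset.mem_insert_of_mem hc))]
      have hle : (C'.filter (fun q => B.Adj p q)).card ≤ C'.card := Finset.card_filter_le _ _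
      rw [ih (C'.filter (fun q => B.Adj p q)).card (by omega) _ rfl
        (fun c hc => hd c (Finset.mem_insert_of_mem (Finset.mem_filter.mp hc).1))
        (fun a ha c hc => hadj a ha c (Finset.mem_insert_of_mem (Finset.mem_filter.mp hc).1))]
      ring

/-- Signed count of the cliques in `A` that contain `y`. -/
noncomputable def T {W : Type u} (B : SimpleGraph W) (A y : Finset W) : ℤ := by
  classical
  exact ∑ c ∈ A.powerset.filter (fun c : Finset W => B.IsClique (c : Set W) ∧ y ⊆ c),
    (-1) ^ c.card

theorem T_eq {W : Type u} [DecidableEq W] (B : SimpleGraph W) (A y : Finset W)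
    [DecidablePred fun c : Finset W => B.IsClique (c : Set W)] :
    T B A y = ∑ c ∈ A.powerset.filter (fun c : Finset W => B.IsClique (c : Set W) ∧ y ⊆ c),
      (-1) ^ c.card := by
  unfold T
  congr!

theorem T_empty {W : Type u} (B : SimpleGraph W) (A : Finset W) : T B A ∅ = E B A := by
  classical
  rw [T_eq, E_eq]
  simp

theorem T_insert {W : Type u} [DecidableEq W] (B : SimpleGraph W) [DecidableRel B.Adj] {x : W}
    {A y : Finset W} (hx : x ∈ A) (hy : x ∉ y) :
    T B A (insert x y) = - T B (A.filter (fun q => B.Adj x q)) y := by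
  classical
  rw [T_eq, T_eq, ← Finset.sum_neg_distrib]
  refine Finset.sum_bij' (fun c _ => c.erase x) (fun c _ => insert x c) ?_ ?_ ?_ ?_ ?_
  · intro c hc
    simp only [Finset.mem_filter, Finset.mem_powerset] at hc ⊢
    obtain ⟨hcA, hcl, hyc⟩ := hc
    have hxc : x ∈ c := hyc (Finset.mem_insert_self _ _)
    refine ⟨?_, ?_, ?_⟩
    · intro q hq
      rw [Finset.mem_erase] at hq
      rw [Finset.mem_filter]
      exact ⟨hcA hq.2, hcl (Finset.mem_coe.mpr hxc) (Finset.mem_coe.mpr hq.2) (Ne.symm hq.1)⟩
    · exact hcl.subset (by simp)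
    · intro q hq
      rw [Finset.mem_erase]
      exact ⟨fun h => hy (h ▸ hq), hyc (Finset.mem_insert_of_mem hq)⟩
  · intro c hc
    simp only [Finset.mem_filter, Finset.mem_powerset] at hc ⊢
    obtain ⟨hcA, hcl, hyc⟩ := hc
    refine ⟨?_, ?_, Finset.insert_subset_insert _ hyc⟩
    · intro q hq
      rcases Finset.mem_insert.mp hq with rfl | hq
      · exact hx
      · exact (Finset.mem_filter.mp (hcA hq)).1
    · rw [Finset.coe_insert, SimpleGraph.isClique_insert]
      exact ⟨hcl, fun q hq _ => (Finset.mem_filter.mp (hcA hq)).2⟩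
  · intro c hc
    simp only [Finset.mem_filter, Finset.mem_powerset] at hc
    exact Finset.insert_erase (hc.2.2 (Finset.mem_insert_self _ _))
  · intro c hc
    simp only [Finset.mem_filter, Finset.mem_powerset] at hc
    refine Finset.erase_insert ?_
    intro h
    exact (Finset.mem_filter.mp (hc.1 h)).2.ne rfl
  · intro c hc
    simp only [Finset.mem_filter, Finset.mem_powerset] at hc
    have hxc := hc.2.2 (Finset.mem_insert_self _ _)
    have : c.card = (c.erase x).card + 1 := by
      rw [Finset.card_erase_add_one hxc]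
    rw [this, pow_succ]
    ring

theorem T_map {W V : Type u} {H : SimpleGraph W} {G : SimpleGraph V} (φ : H ↪g G)
    (S y : Finset W) : T H S y = T G (S.map φ.toEmbedding) (y.map φ.toEmbedding) := by
  classical
  rw [T_eq, T_eq]
  refine Finset.sum_bij (fun c _ => c.map φ.toEmbedding) ?_ ?_ ?_ ?_
  · intro c hc
    simp only [Finset.mem_filter, Finset.mem_powerset] at hc ⊢
    refine ⟨Finset.map_subset_map.mpr hc.1, ?_, Finset.map_subset_map.mpr hc.2.2⟩
    intro a ha b hb hab
    simp only [Finset.coe_map, Set.mem_image, Finset.mem_coe] at ha hb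
    obtain ⟨a', ha', rfl⟩ := ha
    obtain ⟨b', hb', rfl⟩ := hb
    exact φ.map_rel_iff.mpr (hc.2.1 ha' hb' (fun h => hab (by rw [h])))
  · intro c _ c' _ h
    exact Finset.map_injective _ h
  · intro d hd
    simp only [Finset.mem_filter, Finset.mem_powerset] at hd
    obtain ⟨hdS, hdc, hyd⟩ := hd
    have hmap : (S.filter (fun w => φ w ∈ d)).map φ.toEmbedding = d := by
      ext v
      simp only [Finset.mem_map, Finset.mem_filter]
      constructor
      · rintro ⟨w, ⟨_, hw⟩, rfl⟩
        exact hw
      · intro hv
        obtain ⟨w, hw, rfl⟩ := Finset.mem_map.mp (hdS hv)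
        exact ⟨w, ⟨hw, hv⟩, rfl⟩
    refine ⟨S.filter (fun w => φ w ∈ d), ?_, hmap⟩
    simp only [Finset.mem_filter, Finset.mem_powerset]
    refine ⟨Finset.filter_subset _ _, ?_, ?_⟩
    · intro a ha b hb hab
      simp only [Finset.coe_filter, Set.mem_ofPred_eq] at ha hb
      exact φ.map_rel_iff.mp (hdc ha.2 hb.2 (fun h => hab (φ.injective h)))
    · rw [← Finset.map_subset_map (f := φ.toEmbedding), hmap]
      exact hyd
  · intro c _
    rw [Finset.card_map]

theorem E_map {W V : Type u} {H : SimpleGraph W} {G : SimpleGraph V} (φ : H ↪g G)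
    (S : Finset W) : E H S = E G (S.map φ.toEmbedding) := by
  rw [← T_empty, ← T_empty, T_map φ]
  rfl

/-- The Euler characteristic in terms of the signed clique count. -/
theorem eulerChar_eq {V : Type u} [Fintype V] (G : SimpleGraph V) :
    eulerChar G = 1 - E G Finset.univ := by
  classical
  rw [E_eq]
  have hmaps : ∀ c ∈ (Finset.univ : Finset V).powerset.filter
      (fun c : Finset V => G.IsClique (c : Set V)), c.card ∈ Finset.range (Fintype.card V + 1) := by
    intro c _
    rw [Finset.mem_range, Nat.lt_succ_iff]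
    exact Finset.card_le_univ c
  rw [← Finset.sum_fiberwise_of_maps_to hmaps, Finset.sum_range_succ']
  have h0 : ∑ c ∈ ((Finset.univ : Finset V).powerset.filter
      (fun c : Finset V => G.IsClique (c : Set V))).filter (fun c => c.card = 0),
      (-1 : ℤ) ^ c.card = 1 := by
    have : ((Finset.univ : Finset V).powerset.filter
      (fun c : Finset V => G.IsClique (c : Set V))).filter (fun c => c.card = 0) = {∅} := by
      ext c
      simp only [Finset.mem_filter, Finset.mem_powerset, Finset.card_eq_zero,
        Finset.mem_singleton]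
      constructor
      · rintro ⟨_, h⟩; exact h
      · rintro rfl; simp
    rw [this]
    simp
  rw [h0]
  have hk : ∀ k, ∑ c ∈ ((Finset.univ : Finset V).powerset.filter
      (fun c : Finset V => G.IsClique (c : Set V))).filter (fun c => c.card = k + 1),
      (-1 : ℤ) ^ c.card = - ((-1) ^ k * (cliqueCount G k : ℤ)) := by
    intro k
    rw [Finset.sum_congr rfl (g := fun _ => (-1 : ℤ) ^ (k + 1))
      (fun c hc => by rw [(Finset.mem_filter.mp hc).2])]
    rw [Finset.sum_const, cliqueCount, Nat.card_eq_fintype_card, Fintype.card_subtype]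
    have : ((Finset.univ : Finset V).powerset.filter
      (fun c : Finset V => G.IsClique (c : Set V))).filter (fun c => c.card = k + 1) =
      Finset.univ.filter (fun s : Finset V => G.IsNClique (k + 1) s) := by
      ext c
      simp [SimpleGraph.isNClique_iff]
    rw [this, nsmul_eq_mul, pow_succ]
    ring
  simp only [hk, Finset.sum_neg_distrib]
  rw [eulerChar, Nat.card_eq_fintype_card]
  ring

theorem eulerChar_induce {V : Type u} [Fintype V] (G : SimpleGraph V) (N : Set V)
    (A : Finset V) (hA : ∀ x, x ∈ A ↔ x ∈ N) : eulerChar (G.induce N) = 1 - E G A := by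
  classical
  rw [eulerChar_eq, E_map (SimpleGraph.Embedding.induce N)]
  congr 2
  ext x
  simp [hA]

theorem eulerChar_unitSphere {V : Type u} [Fintype V] (G : SimpleGraph V) [DecidableRel G.Adj]
    (x : V) :
    eulerChar (unitSphere G x) = 1 - E G (Finset.univ.filter (fun q => G.Adj x q)) :=
  eulerChar_induce G _ _ (by simp)

theorem collapsible_eulerChar {V : Type u} {G : SimpleGraph V} (h : Collapsible G) :
    Finite V → eulerChar G = 1 := by
  classical
  induction h with
  | @point V G h =>
    intro hf
    have := Fintype.ofFinite V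
    obtain ⟨a, ha⟩ := Finset.card_eq_one.mp (show (Finset.univ : Finset V).card = 1 by
      rw [Finset.card_univ, ← Nat.card_eq_fintype_card, h])
    rw [eulerChar_eq, ha, ← insert_empty_eq, E_insert G (by simp)]
    simp
  | @step V G x h₁ h₂ ih₁ ih₂ =>
    intro hf
    have := Fintype.ofFinite V
    have e1 := ih₁ inferInstance
    have e2 := ih₂ inferInstance
    rw [deleteVertex, eulerChar_induce G _ (Finset.univ.erase x) (by simp)] at e1
    rw [eulerChar_unitSphere] at e2
    rw [eulerChar_eq, ← Finset.insert_erase (Finset.mem_univ x),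
      E_insert G (Finset.notMem_erase _ _)]
    have : (Finset.univ.erase x).filter (fun q => G.Adj x q) =
        Finset.univ.filter (fun q => G.Adj x q) := by
      ext q
      simp only [Finset.mem_filter, Finset.mem_erase, Finset.mem_univ, true_and, and_true,
        and_iff_right_iff_imp]
      intro h
      exact h.ne'
    rw [this]
    linarith

theorem E_sphere {V : Type u} [Fintype V] {n : ℕ} {G : SimpleGraph V} (h : IsSphere n G) :
    E G Finset.univ = (-1) ^ n := by
  classical
  induction n generalizing V with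
  | zero =>
    have h : IsEmpty V := h
    rw [Finset.univ_eq_empty, E_empty]
    simp
  | succ n ih =>
    obtain ⟨hs, x, hx⟩ := h
    have e1 := collapsible_eulerChar hx inferInstance
    rw [deleteVertex, eulerChar_induce G _ (Finset.univ.erase x) (by simp)] at e1
    have e2 := ih (hs x)
    have e3 : eulerChar (unitSphere G x) = 1 - (-1) ^ n := by
      rw [eulerChar_eq, e2]
    rw [eulerChar_unitSphere] at e3
    rw [← Finset.insert_erase (Finset.mem_univ x), E_insert G (Finset.notMem_erase _ _)]
    have : (Finset.univ.erase x).filter (fun q => G.Adj x q) =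
        Finset.univ.filter (fun q => G.Adj x q) := by
      ext q
      simp only [Finset.mem_filter, Finset.mem_erase, Finset.mem_univ, true_and, and_true,
        and_iff_right_iff_imp]
      intro h
      exact h.ne'
    rw [this, pow_succ]
    linarith

/-- Passing to the unit sphere of a vertex of a clique. -/
theorem T_unitSphere {V : Type u} [Fintype V] [DecidableEq V] {G : SimpleGraph V} {y : Finset V}
    (hy : G.IsClique (y : Set V)) {x : V} (hx : x ∈ y) :
    ∃ y' : Finset (G.neighborSet x), (unitSphere G x).IsClique (y' : Set (G.neighborSet x)) ∧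
      y'.card + 1 = y.card ∧ ∀ (_ : Fintype (G.neighborSet x)),
        T G Finset.univ y = - T (unitSphere G x) Finset.univ y' := by
  classical
  refine ⟨(y.erase x).subtype (fun v => v ∈ G.neighborSet x), ?_, ?_, ?_⟩
  · intro a ha b hb hab
    simp only [Finset.mem_coe, Finset.mem_subtype, Finset.mem_erase] at ha hb
    exact hy (Finset.mem_coe.mpr ha.2) (Finset.mem_coe.mpr hb.2) (fun h => hab (Subtype.ext h))
  · rw [Finset.card_subtype, Finset.filter_true_of_mem, Finset.card_erase_add_one hx]
    intro v hv
    rw [Finset.mem_erase] at hv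
    exact hy (Finset.mem_coe.mpr hx) (Finset.mem_coe.mpr hv.2) (Ne.symm hv.1)
  · intro _
    have h1 : T G Finset.univ y = - T G (Finset.univ.filter (fun q => G.Adj x q)) (y.erase x) := by
      rw [← T_insert G (Finset.mem_univ x) (Finset.notMem_erase x y), Finset.insert_erase hx]
    rw [h1, unitSphere, T_map (SimpleGraph.Embedding.induce (G.neighborSet x))]
    congr 2
    · ext v
      simp
    · ext v
      simp only [Finset.mem_erase, Finset.mem_map, Finset.mem_subtype]
      constructor
      · rintro ⟨h1, h2⟩
        exact ⟨⟨v, hy (Finset.mem_coe.mpr hx) (Finset.mem_coe.mpr h2) (Ne.symm h1)⟩, ⟨h1, h2⟩, rfl⟩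
      · rintro ⟨w, hw, rfl⟩
        exact hw

theorem T_sphere {V : Type u} [Fintype V] {n : ℕ} {G : SimpleGraph V} (h : IsSphere n G)
    {y : Finset V} (hy : G.IsClique (y : Set V)) : T G Finset.univ y = (-1) ^ n := by
  classical
  induction n generalizing V with
  | zero =>
    have h' : IsEmpty V := h
    have : y = ∅ := Finset.eq_empty_of_isEmpty y
    rw [this, T_empty]
    exact E_sphere h
  | succ n ih =>
    rcases y.eq_empty_or_nonempty with rfl | ⟨x, hx⟩
    · rw [T_empty]
      exact E_sphere h
    · obtain ⟨y', hy', _, hT⟩ := T_unitSphere hy hx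
      rw [hT inferInstance, ih (h.1 x) hy', pow_succ]
      ring

theorem T_dgraph {V : Type u} [Fintype V] {n : ℕ} {G : SimpleGraph V} (h : IsDGraph (n + 1) G)
    {y : Finset V} (hy : G.IsClique (y : Set V)) (hne : y.Nonempty) :
    T G Finset.univ y = (-1) ^ (n + 1) := by
  classical
  obtain ⟨x, hx⟩ := hne
  obtain ⟨y', hy', _, hT⟩ := T_unitSphere hy hx
  rw [hT inferInstance, T_sphere (h x) hy', pow_succ]
  ring

/-- In a `(n-1)`-variety, the signed clique count above a simplex with at least two vertices. -/
theorem T_variety {V : Type u} [Fintype V] {n : ℕ} {G : SimpleGraph V} (h : IsVariety n G)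
    {y : Finset V} (hy : G.IsClique (y : Set V)) (h2 : 2 ≤ y.card) :
    T G Finset.univ y = (-1) ^ n := by
  classical
  cases n with
  | zero =>
    have h' : IsEmpty V := h
    have : y = ∅ := Finset.eq_empty_of_isEmpty y
    simp [this] at h2
  | succ n =>
    obtain ⟨Sg, hS, h1, _⟩ := h
    obtain ⟨x, hx, hxS⟩ : ∃ x ∈ y, x ∉ Sg := by
      obtain ⟨a, ha, b, hb, hab⟩ := Finset.one_lt_card.mp h2
      by_contra hcon
      push Not at hcon
      exact hS a (hcon a ha) b (hcon b hb) (hy (Finset.mem_coe.mpr ha) (Finset.mem_coe.mpr hb) hab)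
    obtain ⟨y', hy', hc, hT⟩ := T_unitSphere hy hx
    have hne : y'.Nonempty := by
      rw [← Finset.card_pos]; omega
    cases n with
    | zero =>
      have h' : IsEmpty (G.neighborSet x) := h1 x hxS
      obtain ⟨z, _⟩ := hne
      exact (h'.false z).elim
    | succ m =>
      rw [hT inferInstance, T_dgraph (h1 x hxS) hy' hne, pow_succ, pow_succ, pow_succ]
      ring

/-! ### The Barycentric refinement -/

theorem E_top {V : Type u} (G : SimpleGraph V) [DecidableEq V] (A : Finset (Simplex G)) :
    E (barycentric G) A =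
      1 - ∑ p ∈ A, E (barycentric G) (A.filter (fun q => q.1 ⊂ p.1)) := by
  classical
  induction A using Finset.induction_on_max_value (fun p : Simplex G => p.1.card) with
  | empty => simp [E_empty]
  | insert a s ha hmax ih =>
    rw [E_insert _ ha, Finset.sum_insert ha]
    have hnot : ∀ q ∈ s, ¬ a.1 ⊂ q.1 := by
      intro q hq h
      exact absurd (Finset.card_lt_card h) (not_lt.mpr (hmax q hq))
    have e1 : s.filter (fun q => (barycentric G).Adj a q) = s.filter (fun q => q.1 ⊂ a.1) := by
      apply Finset.filter_congr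
      intro q hq
      constructor
      · rintro (h | h)
        · exact absurd h (hnot q hq)
        · exact h
      · intro h
        exact Or.inr h
    have e2 : (insert a s).filter (fun q => q.1 ⊂ a.1) = s.filter (fun q => q.1 ⊂ a.1) := by
      rw [Finset.filter_insert, if_neg (ssubset_irrefl _)]
    have e3 : ∀ p ∈ s, (insert a s).filter (fun q => q.1 ⊂ p.1) =
        s.filter (fun q => q.1 ⊂ p.1) := by
      intro p hp
      rw [Finset.filter_insert, if_neg (hnot p hp)]
    rw [e1, e2, Finset.sum_congr rfl (fun p hp => by rw [e3 p hp])]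
    rw [ih]
    ring

/-- Alternating sum over an interval of finite sets. -/
theorem sum_Icc {V : Type u} [DecidableEq V] {a p : Finset V} (h : a ⊂ p) :
    ∑ q ∈ Finset.Icc a p, (-1 : ℤ) ^ q.card = 0 := by
  rw [Finset.Icc_eq_image_powerset h.subset, Finset.sum_image]
  · have hne : (p \ a).Nonempty := Finset.sdiff_nonempty.mpr (fun hh => h.2 hh)
    have h1 : ∀ r ∈ (p \ a).powerset, (-1 : ℤ) ^ (a ∪ r).card = (-1) ^ a.card * (-1) ^ r.card := by
      intro r hr
      rw [Finset.mem_powerset] at hr
      rw [Finset.card_union_of_disjoint, pow_add]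
      exact Finset.disjoint_left.mpr (fun x hx hxr => (Finset.mem_sdiff.mp (hr hxr)).2 hx)
    rw [Finset.sum_congr rfl h1, ← Finset.mul_sum,
      Finset.sum_powerset_neg_one_pow_card_of_nonempty hne, mul_zero]
  · intro r hr r' hr' hrr
    simp only [Finset.coe_powerset, Set.mem_preimage, Set.mem_powerset_iff] at hr hr'
    have d : ∀ {t : Finset V}, (t : Set V) ⊆ ((p \ a : Finset V) : Set V) → (a ∪ t) \ a = t := by
      intro t ht
      ext x
      simp only [Finset.mem_sdiff, Finset.mem_union]
      constructor
      · rintro ⟨h1 | h1, h2⟩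
        · exact absurd h1 h2
        · exact h1
      · intro hx
        exact ⟨Or.inr hx, (Finset.mem_sdiff.mp (Finset.mem_coe.mp (ht hx))).2⟩
    have hrr' : a ∪ r = a ∪ r' := hrr
    rw [← d hr, ← d hr', hrr']

/-- Signed chain count of an open interval below a simplex. -/
theorem E_interval {V : Type u} [Fintype V] [DecidableEq V] (G : SimpleGraph V)
    [Fintype (Simplex G)] (a : Finset V) :
    ∀ (n : ℕ) (p : Simplex G), p.1.card = n → a ⊂ p.1 →
      E (barycentric G) (Finset.univ.filter (fun q : Simplex G => a ⊂ q.1 ∧ q.1 ⊂ p.1)) =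
        - (-1) ^ (a.card + p.1.card) := by
  classical
  intro n
  induction n using Nat.strong_induction_on with
  | _ n ih =>
    intro p hn hap
    rw [E_top]
    have h1 : ∀ q ∈ Finset.univ.filter (fun q : Simplex G => a ⊂ q.1 ∧ q.1 ⊂ p.1),
        E (barycentric G) ((Finset.univ.filter (fun q : Simplex G => a ⊂ q.1 ∧ q.1 ⊂ p.1)).filter
          (fun r => r.1 ⊂ q.1)) = - ((-1) ^ a.card * (-1) ^ q.1.card) := by
      intro q hq
      rw [Finset.mem_filter] at hq
      obtain ⟨_, haq, hqp⟩ := hq
      have h2 : (Finset.univ.filter (fun q : Simplex G => a ⊂ q.1 ∧ q.1 ⊂ p.1)).filter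
          (fun r => r.1 ⊂ q.1) = Finset.univ.filter (fun r : Simplex G => a ⊂ r.1 ∧ r.1 ⊂ q.1) := by
        ext r
        simp only [Finset.mem_filter, Finset.mem_univ, true_and]
        constructor
        · rintro ⟨⟨h1, _⟩, h3⟩; exact ⟨h1, h3⟩
        · rintro ⟨h1, h3⟩; exact ⟨⟨h1, h3.trans hqp⟩, h3⟩
      rw [h2, ih q.1.card (by rw [← hn]; exact Finset.card_lt_card hqp) q rfl haq, pow_add]
    rw [Finset.sum_congr rfl h1, Finset.sum_neg_distrib, ← Finset.mul_sum]
    have h3 : ∑ q ∈ Finset.univ.filter (fun q : Simplex G => a ⊂ q.1 ∧ q.1 ⊂ p.1),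
        (-1 : ℤ) ^ q.1.card = ∑ q ∈ ((Finset.Icc a p.1).erase p.1).erase a, (-1 : ℤ) ^ q.card := by
      refine Finset.sum_bij (fun q _ => q.1) ?_ ?_ ?_ ?_
      · intro q hq
        rw [Finset.mem_filter] at hq
        obtain ⟨_, haq, hqp⟩ := hq
        simp only [Finset.mem_erase, Finset.mem_Icc]
        exact ⟨haq.ne', hqp.ne, haq.subset, hqp.subset⟩
      · intro q _ r _ h
        exact Subtype.ext h
      · intro q hq
        simp only [Finset.mem_erase, Finset.mem_Icc] at hq
        obtain ⟨h1, h2, h3, h4⟩ := hq
        have haq : a ⊂ q := Finset.ssubset_iff_subset_ne.mpr ⟨h3, Ne.symm h1⟩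
        have hqp : q ⊂ p.1 := Finset.ssubset_iff_subset_ne.mpr ⟨h4, h2⟩
        refine ⟨⟨q, ?_, ?_⟩, ?_, rfl⟩
        · obtain ⟨z, hz, _⟩ := Finset.exists_of_ssubset haq
          exact ⟨z, hz⟩
        · exact p.2.2.subset (Finset.coe_subset.mpr hqp.subset)
        · simp only [Finset.mem_filter, Finset.mem_univ, true_and]
          exact ⟨haq, hqp⟩
      · intro q _
        rfl
    have hp : p.1 ∈ Finset.Icc a p.1 := Finset.mem_Icc.mpr ⟨hap.subset, le_refl _⟩
    have ha : a ∈ (Finset.Icc a p.1).erase p.1 := by
      rw [Finset.mem_erase, Finset.mem_Icc]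
      exact ⟨hap.ne, le_refl _, hap.subset⟩
    have h4 := Finset.add_sum_erase (Finset.Icc a p.1) (fun q => (-1 : ℤ) ^ q.card) hp
    have h5 := Finset.add_sum_erase ((Finset.Icc a p.1).erase p.1) (fun q => (-1 : ℤ) ^ q.card) ha
    rw [sum_Icc hap] at h4
    rw [h3]
    have h6 : ∑ q ∈ ((Finset.Icc a p.1).erase p.1).erase a, (-1 : ℤ) ^ q.card =
        - (-1) ^ p.1.card - (-1) ^ a.card := by
      linarith
    rw [h6, pow_add]
    have h7 : (-1 : ℤ) ^ a.card * (-1) ^ a.card = 1 := by
      rw [← mul_pow]; simp
    linear_combination - h7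

/-- Signed chain count of the simplices above a given one. -/
theorem E_above {V : Type u} [Fintype V] [DecidableEq V] (G : SimpleGraph V)
    [Fintype (Simplex G)] (x : Simplex G) :
    E (barycentric G) (Finset.univ.filter (fun q : Simplex G => x.1 ⊂ q.1)) =
      (-1) ^ x.1.card * T G Finset.univ x.1 := by
  classical
  rw [E_top]
  have h1 : ∀ p ∈ Finset.univ.filter (fun q : Simplex G => x.1 ⊂ q.1),
      E (barycentric G) ((Finset.univ.filter (fun q : Simplex G => x.1 ⊂ q.1)).filter
        (fun r => r.1 ⊂ p.1)) = - ((-1) ^ x.1.card * (-1) ^ p.1.card) := by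
    intro p hp
    rw [Finset.mem_filter] at hp
    rw [Finset.filter_filter, E_interval G x.1 p.1.card p rfl hp.2, pow_add]
  rw [Finset.sum_congr rfl h1, Finset.sum_neg_distrib, ← Finset.mul_sum]
  have h2 : T G Finset.univ x.1 = ∑ q ∈ Finset.univ.filter (fun q : Simplex G => x.1 ⊆ q.1),
      (-1 : ℤ) ^ q.1.card := by
    rw [T_eq]
    symm
    refine Finset.sum_bij (fun q _ => q.1) ?_ ?_ ?_ ?_
    · intro q hq
      simp only [Finset.mem_filter, Finset.mem_univ, true_and] at hq
      simp only [Finset.mem_filter, Finset.mem_powerset, Finset.subset_univ, true_and]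
      exact ⟨q.2.2, hq⟩
    · intro q _ r _ h
      exact Subtype.ext h
    · intro q hq
      simp only [Finset.mem_filter, Finset.mem_powerset, Finset.subset_univ, true_and] at hq
      refine ⟨⟨q, x.2.1.mono hq.2, hq.1⟩, ?_, rfl⟩
      rw [Finset.mem_filter]
      exact ⟨Finset.mem_univ _, hq.2⟩
    · intro q _
      rfl
  have h3 : Finset.univ.filter (fun q : Simplex G => x.1 ⊆ q.1) =
      insert x (Finset.univ.filter (fun q : Simplex G => x.1 ⊂ q.1)) := by
    ext q
    simp only [Finset.mem_filter, Finset.mem_univ, true_and, Finset.mem_insert]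
    constructor
    · intro h
      rcases LE.le.eq_or_ssubset h with h | h
      · exact Or.inl (Subtype.ext h.symm)
      · exact Or.inr h
    · rintro (rfl | h)
      · exact Finset.Subset.refl _
      · exact h.subset
  rw [h2, h3, Finset.sum_insert (by simp)]
  have h7 : (-1 : ℤ) ^ x.1.card * (-1) ^ x.1.card = 1 := by
    rw [← mul_pow]; simp
  linear_combination - h7

/-- The curvature `χ(S(x))` at a vertex of the Barycentric refinement. -/
theorem curvature {V : Type u} [Fintype V] (G : SimpleGraph V) (x : Simplex G) :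
    eulerChar (unitSphere (barycentric G) x) = 1 + T G Finset.univ x.1 := by
  classical
  rw [eulerChar_unitSphere]
  have h1 : Finset.univ.filter (fun q => (barycentric G).Adj x q) =
      Finset.univ.filter (fun q : Simplex G => ∅ ⊂ q.1 ∧ q.1 ⊂ x.1) ∪
        Finset.univ.filter (fun q : Simplex G => x.1 ⊂ q.1) := by
    ext q
    simp only [Finset.mem_filter, Finset.mem_univ, true_and, Finset.mem_union]
    have hq : ∅ ⊂ q.1 := Finset.empty_ssubset.mpr q.2.1
    constructor
    · rintro (h | h)
      · exact Or.inr h
      · exact Or.inl ⟨hq, h⟩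
    · rintro (⟨_, h⟩ | h)
      · exact Or.inr h
      · exact Or.inl h
  rw [h1, E_join (barycentric G) _ _ _ rfl]
  · rw [E_interval G ∅ x.1.card x rfl (Finset.empty_ssubset.mpr x.2.1), E_above]
    have h7 : (-1 : ℤ) ^ x.1.card * (-1) ^ x.1.card = 1 := by
      rw [← mul_pow]; simp
    simp only [Finset.card_empty, zero_add]
    linear_combination (T G Finset.univ x.1) * h7
  · intro c hc hc'
    simp only [Finset.mem_filter, Finset.mem_univ, true_and] at hc hc'
    exact ssubset_irrefl _ (hc.trans hc'.2)
  · intro a ha c hc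
    simp only [Finset.mem_filter, Finset.mem_univ, true_and] at ha hc
    exact Or.inr (ha.2.trans hc)

/-! ### The main theorem -/

/-- The cliques of `G` that contain `y` as a finite set of finite sets. -/
theorem T_univ {V : Type u} [Fintype V] [DecidableEq V] (G : SimpleGraph V) (y : Finset V)
    [DecidablePred fun c : Finset V => G.IsClique (c : Set V)] :
    T G Finset.univ y = ∑ c ∈ Finset.univ.filter (fun c : Finset V => G.IsClique (c : Set V)),
      if y ⊆ c then (-1) ^ c.card else 0 := by
  rw [T_eq, ← Finset.sum_filter, Finset.filter_filter]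
  simp

/-- Alternating sum of the subsets with at least two elements. -/
theorem sum_two {V : Type u} [DecidableEq V] (p : Finset V) :
    ∑ y ∈ p.powerset.filter (fun y => 2 ≤ y.card), (-1 : ℤ) ^ y.card =
      if p = ∅ then 0 else (p.card : ℤ) - 1 := by
  have h := Finset.sum_powerset_neg_one_pow_card (x := p)
  rw [← Finset.sum_filter_add_sum_filter_not _ (fun y : Finset V => 2 ≤ y.card)] at h
  have h1 : p.powerset.filter (fun y => ¬ 2 ≤ y.card) =
      insert ∅ (p.map ⟨fun x => {x}, Finset.singleton_injective⟩) := by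
    ext y
    simp only [Finset.mem_filter, Finset.mem_powerset, Finset.mem_insert, Finset.mem_map,
      Function.Embedding.coeFn_mk]
    constructor
    · rintro ⟨hy, hc⟩
      rcases y.eq_empty_or_nonempty with rfl | hne
      · exact Or.inl rfl
      · right
        have : y.card = 1 := by
          have := Finset.card_pos.mpr hne
          omega
        obtain ⟨a, rfl⟩ := Finset.card_eq_one.mp this
        exact ⟨a, hy (Finset.mem_singleton_self a), rfl⟩
    · rintro (rfl | ⟨a, ha, rfl⟩)
      · simp
      · simp [ha]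
  rw [h1, Finset.sum_insert (by simp), Finset.sum_map] at h
  simp at h
  split_ifs at h ⊢ with hp
  · have h0 : (p.card : ℤ) = 0 := by rw [hp]; simp
    linarith
  · linarith

/-- Alternating sum of the subsets with at least two elements that contain a given one. -/
theorem sum_two_mem {V : Type u} [DecidableEq V] {p : Finset V} {v : V} (hv : v ∈ p)
    (h2 : 2 ≤ p.card) :
    ∑ y ∈ p.powerset.filter (fun y => 2 ≤ y.card ∧ v ∈ y), (-1 : ℤ) ^ y.card = 1 := by
  have hlt : ({v} : Finset V) ⊂ p := by
    refine Finset.ssubset_iff_subset_ne.mpr ⟨Finset.singleton_subset_iff.mpr hv, ?_⟩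
    rintro rfl
    simp at h2
  have h := sum_Icc hlt
  have hv' : ({v} : Finset V) ∈ Finset.Icc {v} p :=
    Finset.mem_Icc.mpr ⟨le_refl _, hlt.subset⟩
  rw [← Finset.add_sum_erase _ _ hv'] at h
  have h1 : (Finset.Icc {v} p).erase {v} = p.powerset.filter (fun y => 2 ≤ y.card ∧ v ∈ y) := by
    ext y
    simp only [Finset.mem_erase, Finset.mem_Icc, Finset.mem_filter, Finset.mem_powerset]
    constructor
    · rintro ⟨h1, h2, h3⟩
      have hvy : v ∈ y := h2 (Finset.mem_singleton_self v)
      refine ⟨h3, ?_, hvy⟩
      by_contra hcon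
      have : y.card = 1 := by
        have := Finset.card_pos.mpr ⟨v, hvy⟩
        omega
      obtain ⟨a, rfl⟩ := Finset.card_eq_one.mp this
      rw [Finset.mem_singleton] at hvy
      exact h1 (by rw [hvy])
    · rintro ⟨h1, h2, h3⟩
      refine ⟨?_, Finset.singleton_subset_iff.mpr h3, h1⟩
      rintro rfl
      simp at h2
  rw [h1] at h
  simp at h
  linarith

open Classical in
theorem main {V : Type u} [Fintype V] {n : ℕ} {G : SimpleGraph V} (h : IsVariety n G)
    (heta : eta G = 0) (x : Simplex G) : 1 + T G Finset.univ x.1 = 0 := by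
  obtain ⟨C, hC0⟩ : ∃ C : Finset (Finset V),
      Finset.univ.filter (fun c : Finset V => G.IsClique (c : Set V)) = C := ⟨_, rfl⟩
  have hC : ∀ c, c ∈ C ↔ G.IsClique (c : Set V) := by simp [← hC0]
  have hsub : ∀ {y p : Finset V}, p ∈ C → y ⊆ p → y ∈ C := by
    intro y p hp hy
    rw [hC] at hp ⊢
    exact hp.subset (Finset.coe_subset.mpr hy)
  have hT2 : ∀ y ∈ C, 2 ≤ y.card → T G Finset.univ y = (-1) ^ n :=
    fun y hy h2 => T_variety h ((hC y).mp hy) h2
  -- the curvature at a single vertex
  have hV : ∀ v : V, 1 + T G Finset.univ {v} =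
      ∑ p ∈ C.filter (fun p => 2 ≤ p.card), if v ∈ p then (-1 : ℤ) ^ p.card else 0 := by
    intro v
    have hvC : ({v} : Finset V) ∈ C := by rw [hC]; simp
    rw [T_univ, hC0, Finset.sum_filter (fun p : Finset V => 2 ≤ p.card)]
    have e : ∀ p ∈ C, (if {v} ⊆ p then (-1 : ℤ) ^ p.card else 0) =
        (if p = {v} then -1 else 0) +
          (if 2 ≤ p.card then (if v ∈ p then (-1 : ℤ) ^ p.card else 0) else 0) := by
      intro p _
      simp only [Finset.singleton_subset_iff]
      by_cases hvp : v ∈ p
      · by_cases h2 : 2 ≤ p.card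
        · have : p ≠ {v} := by rintro rfl; simp at h2
          simp [hvp, h2, this]
        · have h1 : p.card = 1 := by
            have := Finset.card_pos.mpr ⟨v, hvp⟩
            omega
          obtain ⟨a, rfl⟩ := Finset.card_eq_one.mp h1
          rw [Finset.mem_singleton] at hvp
          subst hvp
          simp
      · have : p ≠ {v} := by rintro rfl; simp at hvp
        simp [hvp, this]
    rw [Finset.sum_congr rfl e, Finset.sum_add_distrib, Finset.sum_ite_eq' C {v}, if_pos hvC]
    ring
  rcases Nat.even_or_odd n with hn | hn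
  · -- odd dimension: `eta` counts simplices of odd dimension
    have hs : ((-1 : ℤ)) ^ n = 1 := hn.neg_one_pow
    rw [hs] at hT2
    -- the first identity
    have hA : ∑ p ∈ C.filter (fun p => 2 ≤ p.card), (-1 : ℤ) ^ p.card * ((p.card : ℤ) - 2) = 0 := by
      have e1 : ∑ y ∈ C.filter (fun y => 2 ≤ y.card), (-1 : ℤ) ^ y.card * T G Finset.univ y =
          ∑ y ∈ C.filter (fun y => 2 ≤ y.card), (-1 : ℤ) ^ y.card := by
        apply Finset.sum_congr rfl
        intro y hy
        rw [Finset.mem_filter] at hy
        rw [hT2 y hy.1 hy.2, mul_one]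
      have e2 : ∑ y ∈ C.filter (fun y => 2 ≤ y.card), (-1 : ℤ) ^ y.card * T G Finset.univ y =
          ∑ p ∈ C, (-1 : ℤ) ^ p.card *
            ∑ y ∈ p.powerset.filter (fun y => 2 ≤ y.card), (-1 : ℤ) ^ y.card := by
        simp only [T_univ, hC0, Finset.mul_sum]
        rw [Finset.sum_comm]
        apply Finset.sum_congr rfl
        intro p hp
        have e3 : p.powerset.filter (fun y => 2 ≤ y.card) =
            (C.filter (fun y => 2 ≤ y.card)).filter (fun y => y ⊆ p) := by
          ext y
          simp only [Finset.mem_filter, Finset.mem_powerset]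
          constructor
          · rintro ⟨h1, h2⟩
            exact ⟨⟨hsub hp h1, h2⟩, h1⟩
          · rintro ⟨⟨_, h2⟩, h1⟩
            exact ⟨h1, h2⟩
        rw [e3, Finset.sum_filter (fun y => y ⊆ p)]
        apply Finset.sum_congr rfl
        intro y _
        split_ifs <;> ring
      have e4 : ∑ p ∈ C, (-1 : ℤ) ^ p.card *
            ∑ y ∈ p.powerset.filter (fun y => 2 ≤ y.card), (-1 : ℤ) ^ y.card =
          ∑ p ∈ C.filter (fun p => 2 ≤ p.card), (-1 : ℤ) ^ p.card * ((p.card : ℤ) - 1) := by
        rw [Finset.sum_filter (fun p : Finset V => 2 ≤ p.card)]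
        apply Finset.sum_congr rfl
        intro p _
        rw [sum_two]
        rcases p.eq_empty_or_nonempty with rfl | hne
        · simp
        · rw [if_neg hne.ne_empty]
          split_ifs with h2
          · rfl
          · have := Finset.card_pos.mpr hne
            have : p.card = 1 := by omega
            simp [this]
      have e5 : ∑ p ∈ C.filter (fun p => 2 ≤ p.card), (-1 : ℤ) ^ p.card * ((p.card : ℤ) - 2) =
          ∑ p ∈ C.filter (fun p => 2 ≤ p.card), (-1 : ℤ) ^ p.card * ((p.card : ℤ) - 1) -
          ∑ p ∈ C.filter (fun p => 2 ≤ p.card), (-1 : ℤ) ^ p.card := by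
        rw [← Finset.sum_sub_distrib]
        apply Finset.sum_congr rfl
        intro p _
        ring
      rw [e5, ← e4, ← e2, e1, sub_self]
    -- the value of eta
    have hB : eta G = ∑ p ∈ C.filter (fun p => 2 ≤ p.card), (2 + 2 * (-1 : ℤ) ^ p.card) := by
      rw [eta, finsum_eq_sum_of_fintype]
      simp only [curvature]
      have e1 : ∑ x : Simplex G, (1 + T G Finset.univ x.1) =
          ∑ x ∈ C.filter (fun p => p.Nonempty), (1 + T G Finset.univ x) := by
        refine Finset.sum_bij (fun x _ => x.1) ?_ ?_ ?_ ?_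
        · intro x _
          rw [Finset.mem_filter, hC]
          exact ⟨x.2.2, x.2.1⟩
        · intro a _ b _ hab
          exact Subtype.ext hab
        · intro p hp
          rw [Finset.mem_filter, hC] at hp
          exact ⟨⟨p, hp.2, hp.1⟩, Finset.mem_univ _, rfl⟩
        · intro x _
          rfl
      have e2 : C.filter (fun p => p.Nonempty) = C.filter (fun p => 2 ≤ p.card) ∪
          Finset.univ.map ⟨fun v : V => ({v} : Finset V), Finset.singleton_injective⟩ := by
        ext p
        simp only [Finset.mem_filter, Finset.mem_union, Finset.mem_map, Finset.mem_univ, true_and,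
          Function.Embedding.coeFn_mk]
        constructor
        · rintro ⟨hp, hne⟩
          by_cases h2 : 2 ≤ p.card
          · exact Or.inl ⟨hp, h2⟩
          · right
            have := Finset.card_pos.mpr hne
            obtain ⟨a, rfl⟩ := Finset.card_eq_one.mp (show p.card = 1 by omega)
            exact ⟨a, rfl⟩
        · rintro (⟨hp, h2⟩ | ⟨v, rfl⟩)
          · exact ⟨hp, Finset.card_pos.mp (by omega)⟩
          · refine ⟨by rw [hC]; simp, Finset.singleton_nonempty v⟩
      have hdis : Disjoint (C.filter (fun p => 2 ≤ p.card))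
          (Finset.univ.map ⟨fun v : V => ({v} : Finset V), Finset.singleton_injective⟩) := by
        rw [Finset.disjoint_left]
        intro p hp hp'
        simp only [Finset.mem_filter, Finset.mem_map, Finset.mem_univ, true_and,
          Function.Embedding.coeFn_mk] at hp hp'
        obtain ⟨v, rfl⟩ := hp'
        simp at hp
      rw [e1, e2, Finset.sum_union hdis, Finset.sum_map]
      simp only [Function.Embedding.coeFn_mk, hV]
      rw [Finset.sum_comm]
      have e3 : ∀ p : Finset V, ∑ v : V, (if v ∈ p then (-1 : ℤ) ^ p.card else 0) =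
          (p.card : ℤ) * (-1) ^ p.card := by
        intro p
        rw [← Finset.sum_filter, Finset.sum_const, nsmul_eq_mul]
        simp
      rw [Finset.sum_congr rfl (fun p _ => e3 p)]
      have e4 : ∑ x ∈ C.filter (fun p => 2 ≤ p.card), (1 + T G Finset.univ x) =
          ∑ x ∈ C.filter (fun p => 2 ≤ p.card), (2 : ℤ) := by
        apply Finset.sum_congr rfl
        intro y hy
        rw [Finset.mem_filter] at hy
        rw [hT2 y hy.1 hy.2]
        norm_num
      rw [e4, ← Finset.sum_add_distrib]
      rw [← sub_eq_zero, ← Finset.sum_sub_distrib, ← hA]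
      apply Finset.sum_congr rfl
      intro p _
      ring
    -- there are no simplices of positive dimension
    have hD : ∀ p ∈ C, ¬ 2 ≤ p.card := by
      intro p hp h2
      rw [heta] at hB
      obtain ⟨q, hqp, hq2⟩ := Finset.exists_subset_card_eq h2
      have hq : q ∈ C.filter (fun p => 2 ≤ p.card) := by
        rw [Finset.mem_filter]
        exact ⟨hsub hp hqp, by omega⟩
      have hnn : ∀ r ∈ C.filter (fun p => 2 ≤ p.card), 0 ≤ (2 + 2 * (-1 : ℤ) ^ r.card) := by
        intro r _
        rcases neg_one_pow_eq_or ℤ r.card with h | h <;> rw [h] <;> norm_num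
      have h0 := (Finset.sum_eq_zero_iff_of_nonneg hnn).mp hB.symm q hq
      rw [hq2] at h0
      norm_num at h0
    have hx1 : x.1.card = 1 := by
      have h1 := Finset.card_pos.mpr x.2.1
      have h2 := hD x.1 ((hC _).mpr x.2.2)
      omega
    obtain ⟨v, hv⟩ := Finset.card_eq_one.mp hx1
    rw [hv, hV]
    apply Finset.sum_eq_zero
    intro p hp
    rw [Finset.mem_filter] at hp
    exact absurd hp.2 (hD p hp.1)
  · -- even dimension: all curvatures vanish
    have hs : ((-1 : ℤ)) ^ n = -1 := hn.neg_one_pow
    rw [hs] at hT2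
    by_cases h2 : 2 ≤ x.1.card
    · rw [hT2 x.1 ((hC _).mpr x.2.2) h2]
      norm_num
    · have hx1 : x.1.card = 1 := by
        have h1 := Finset.card_pos.mpr x.2.1
        omega
      obtain ⟨v, hv⟩ := Finset.card_eq_one.mp hx1
      rw [hv, hV]
      set Z := ∑ p ∈ C.filter (fun p => 2 ≤ p.card), if v ∈ p then (-1 : ℤ) ^ p.card else 0 with hZ
      have e1 : ∑ y ∈ C.filter (fun y => 2 ≤ y.card ∧ v ∈ y),
          (-1 : ℤ) ^ y.card * T G Finset.univ y = - Z := by
        rw [hZ, ← Finset.sum_neg_distrib, Finset.sum_filter (fun y : Finset V => 2 ≤ y.card ∧ v ∈ y),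
          Finset.sum_filter (fun y : Finset V => 2 ≤ y.card)]
        apply Finset.sum_congr rfl
        intro y hy
        by_cases h2 : 2 ≤ y.card
        · by_cases hvy : v ∈ y
          · simp [h2, hvy, hT2 y hy h2]
          · simp [hvy]
        · simp [h2]
      have e2 : ∑ y ∈ C.filter (fun y => 2 ≤ y.card ∧ v ∈ y),
          (-1 : ℤ) ^ y.card * T G Finset.univ y =
          ∑ p ∈ C, (-1 : ℤ) ^ p.card *
            ∑ y ∈ p.powerset.filter (fun y => 2 ≤ y.card ∧ v ∈ y), (-1 : ℤ) ^ y.card := by
        simp only [T_univ, hC0, Finset.mul_sum]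
        rw [Finset.sum_comm]
        apply Finset.sum_congr rfl
        intro p hp
        have e3 : p.powerset.filter (fun y => 2 ≤ y.card ∧ v ∈ y) =
            (C.filter (fun y => 2 ≤ y.card ∧ v ∈ y)).filter (fun y => y ⊆ p) := by
          ext y
          simp only [Finset.mem_filter, Finset.mem_powerset]
          constructor
          · rintro ⟨h1, h2⟩
            exact ⟨⟨hsub hp h1, h2⟩, h1⟩
          · rintro ⟨⟨_, h2⟩, h1⟩
            exact ⟨h1, h2⟩
        rw [e3, Finset.sum_filter (fun y => y ⊆ p)]
        apply Finset.sum_congr rfl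
        intro y _
        split_ifs <;> ring
      have e4 : ∑ p ∈ C, (-1 : ℤ) ^ p.card *
            ∑ y ∈ p.powerset.filter (fun y => 2 ≤ y.card ∧ v ∈ y), (-1 : ℤ) ^ y.card = Z := by
        rw [hZ, Finset.sum_filter (fun y : Finset V => 2 ≤ y.card)]
        apply Finset.sum_congr rfl
        intro p _
        by_cases hvp : v ∈ p
        · by_cases h2 : 2 ≤ p.card
          · rw [sum_two_mem hvp h2]
            simp [h2, hvp]
          · rw [if_neg h2, Finset.filter_false_of_mem]
            · simp
            · rintro y hy ⟨h3, _⟩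
              exact h2 (h3.trans (Finset.card_le_card (Finset.mem_powerset.mp hy)))
        · rw [Finset.filter_false_of_mem]
          · simp [hvp]
          · rintro y hy ⟨_, h3⟩
            exact hvp (Finset.mem_powerset.mp hy h3)
      have : - Z = Z := by rw [← e1, e2, e4]
      linarith

/-- Q1 holds: for every `d ≥ 0` and every finite `d`-variety `G`, the functional `η(G)` vanishes if
and only if `χ(S(x)) = 0` for every vertex `x` of the Barycentric refinement `G_1`. -/
theorem result : ∀ (d : ℕ) {V : Type u} [Finite V] (G : SimpleGraph V), IsVariety (d + 1) G →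
    (eta G = 0 ↔ ∀ x : Simplex G, eulerChar (unitSphere (barycentric G) x) = 0) := by
  intro d V _ G h
  have := Fintype.ofFinite V
  constructor
  · intro heta x
    rw [curvature]
    exact main h heta x
  · intro h0
    rw [eta]
    simp [h0]

end Pool.Agent.Results.MP_dbf4ef_co.EtaVariety
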